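import Mathlib
import Pool.Agent.Lib.helper23.MinB

set_option autoImplicit false

namespace Pool.Agent.H.MP_7406cc_gt.A

open Set Filter Topology Function Order Pool.Agent.Lib.helper23
open Cardinal hiding univ
open Dual PW AbQ MinA

def PR (G : Type) [TopologicalSpace G] : Prop := ∀ A : Set G, ¬ IsClosed A →
  ∃ (ι : Type) (_ : LinearOrder ι), WellFoundedLT ι ∧ Nonempty ι ∧
    ∃ (x : ι → G) (p : G), (∀ i, x i ∈ A) ∧ p ∉ A ∧ Tendsto x atTop (𝓝 p)

lemma pr_cl {A B : Type} [TopologicalSpace A] [TopologicalSpace B] {f : B → A}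
    (hf : IsClosedEmbedding f) (h : PR A) : PR B := fun X hX => by
  obtain ⟨ι, _, i1, i2, x, p, h1, h2, h3⟩ := h (f '' X) (mt hf.isClosed_iff_image_isClosed.2 hX)
  choose y y1 y2 using h1
  obtain ⟨q, rfl⟩ : p ∈ range f := hf.isClosed_range.mem_of_tendsto h3 (.of_forall fun i => ⟨_, y2 i⟩)
  exact ⟨ι, _, i1, i2, y, q, y1, fun e => h2 ⟨q, e, rfl⟩,
    hf.tendsto_nhds_iff.2 (h3.congr fun i => (y2 i).symm)⟩

lemma pr_seq {A Z : Type} [TopologicalSpace A] [T2Space A] [Countable Z] (h : PR A) (g : Z → A)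
    (hg : ¬ IsClosed (range g)) :
    ∃ (s : ℕ → Z) (p : A), Tendsto s atTop cofinite ∧ Tendsto (g ∘ s) atTop (𝓝 p) := by
  obtain ⟨ι, _, -, i2, x, p, h1, h2, h3⟩ := h _ hg
  choose y hy using h1
  have k (z : Z) : ∀ᶠ i in atTop, y i ≠ z := by
    by_contra hn
    refine h2 ⟨z, tendsto_nhds_unique_of_frequently_eq tendsto_const_nhds h3 ?_⟩
    exact (not_eventually.1 hn).mono fun i hi => by rw [← hy, not_not.1 hi]
  choose j hj using fun z => eventually_atTop.1 (k z)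
  have : (atTop : Filter ι).IsCountablyGenerated := by
    refine HasCountableBasis.isCountablyGenerated (ι := Z) (p := fun _ => True)
      (s := fun z => Ici (j z)) ⟨atTop_basis.to_hasBasis (fun i _ => ⟨y i, trivial,
        Ici_subset_Ici.2 (le_of_not_ge fun e => hj _ i e rfl)⟩)
        fun z _ => ⟨j z, trivial, Subset.rfl⟩, countable_univ⟩
  obtain ⟨u, hu⟩ := exists_seq_tendsto (atTop : Filter ι)
  refine ⟨y ∘ u, p, Tendsto.comp (g := y)
    (le_cofinite_iff_eventually_ne.2 fun z => eventually_map.2 (k z)) hu, (h3.comp hu).congr fun n => (hy _).symm⟩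

lemma thin (a b : ℕ → ℕ) (h : ∀ n, a n < b n) (hb : Tendsto b atTop atTop) :
    ∃ φ : ℕ → ℕ, StrictMono φ ∧ StrictMono (b ∘ φ) ∧ ∀ j k, b (φ j) ≠ a (φ k) := by
  obtain ⟨P, h1, h2⟩ : ∃ P : ℕ → Prop, (∃ᶠ n in atTop, P n) ∧
      ∀ m, P m → ∀ᶠ n in atTop, P n → b m ≠ a n := by
    by_cases e : ∃ c, ∃ᶠ n in atTop, a n = c
    · obtain ⟨c, e⟩ := e
      exact ⟨_, e, fun m hm => .of_forall fun n hn => by have := h m; omega⟩
    · push Not at e
      exact ⟨fun _ => True, .of_forall fun _ => trivial, fun m _ => (e _).mono fun n k _ => k.symm⟩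
  obtain ⟨φ, -, f⟩ := exists_seq_of_forall_finset_exists P
    (fun m n => m < n ∧ b m < b n ∧ b m ≠ a n) fun s hs => by
      obtain ⟨n, n1, n2⟩ := (h1.and_eventually ((eventually_all_finset s).2 fun m hm =>
        (eventually_gt_atTop m).and ((hb.eventually (eventually_gt_atTop (b m))).and
          (h2 m (hs m hm))))).exists
      exact ⟨n, n1, fun m hm => ⟨(n2 m hm).1, (n2 m hm).2.1, (n2 m hm).2.2 n1⟩⟩
  have m : StrictMono (b ∘ φ) := fun j k e => (f j k e).2.1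
  exact ⟨φ, fun j k e => (f j k e).1, m, fun j k => (lt_or_ge j k).elim (fun e => (f j k e).2.2)
    fun e => ((h _).trans_le (m.monotone e)).ne'⟩

variable {A : Type} [AddCommGroup A] [TopologicalSpace A] {κ : Cardinal}
  [IsTopologicalAddGroup A] [T2Space A]

theorem preP (hκ : ℵ₀ ≤ κ) (hc : 𝔠 ≤ succ κ) (hP : Pre A) (hA : Mn A) (ht : PR A) :
    #(DD A) ≤ κ := by
  classical
  have top (E : Set (DD A)) (hE : ∀ x, (∀ χ ∈ E, χ.1 x = 0) → x = 0) :=
    emb hA (AddMonoidHom.pi fun i : E => i.1.1) (continuous_pi fun i => i.1.2)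
      fun x hx => hE x fun χ h => congrFun hx ⟨χ, h⟩
  by_contra hn
  obtain ⟨R, _, I, π, _, _, h1, h2⟩ := quot hκ (not_le.1 hn)
  let φ : Set I → DD A →+ R := fun J => (Finsupp.liftAddHom fun i =>
    if i ∈ J then AddMonoidHom.id R else 0).comp π
  choose d hd using fun i t => h2 (Finsupp.single i t)
  have φ1 (J i t) (h : i ∈ J) : φ J (d i t) = t := by simp [φ, hd, h]
  have φ0 (J i t) (h : i ∉ J) : φ J (d i t) = 0 := by simp [φ, hd, h]
  obtain ⟨e⟩ := (Cardinal.le_def (ℕ → ℝ) I).1 (le_trans (by simp [mk_real]) (hc.trans (succ_le_of_lt h1)))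
  let J (ξ : ℝ) : Set I := e '' {f | ξ ∈ range f}
  have hJ (ξ f) : e f ∈ J ξ ↔ ξ ∈ range f := e.injective.mem_set_image
  have key (ξ : ℝ) : ∃ (g : A) (q : R × ℕ), (∀ χ, φ (J ξ) χ = 0 → χ.1 g = 0) ∧
      ∀ χ, φ (J ξ) χ = q.1 → 1 / (q.2 + 1 : ℝ) < ‖χ.1 g‖ := by
    obtain ⟨g, g1, g2⟩ : ∃ g, (∀ χ ∈ ((φ (J ξ)).ker : Set (DD A)), χ.1 g = 0) ∧ g ≠ 0 := by
      by_contra h
      push Not at h
      obtain ⟨t, ht⟩ := exists_ne (0 : R)
      exact ht ((φ1 _ _ t ((hJ ξ fun _ => ξ).2 ⟨0, rfl⟩)).symm.trans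
        (crD (fun i : ((φ (J ξ)).ker : Set (DD A)) => i.1) _ (top _ h (qnb _)) _ fun i => i.2))
    obtain ⟨χ, c1, c2⟩ := pw hP g2
    obtain ⟨n, hn⟩ := exists_nat_one_div_lt (norm_pos_iff.2 c2)
    refine ⟨g, (φ (J ξ) ⟨χ, c1⟩, n), g1, fun ψ h => ?_⟩
    have : ψ.1 g - χ g = 0 := g1 (ψ - (⟨χ, c1⟩ : DD A)) (by simp [h])
    rwa [sub_eq_zero.1 this]
  choose g q g1 g2 using key
  obtain ⟨r, hr⟩ : ∃ r, (q ⁻¹' {r}).Infinite := by
    by_contra! h
    exact not_countable_univ ((countable_iUnion fun r => (h r).countable).mono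
      fun ξ _ => mem_iUnion.2 ⟨q ξ, rfl⟩)
  let ξ (n : ℕ) : ℝ := hr.natEmbedding _ n
  have x1 : Injective ξ := Subtype.val_injective.comp (hr.natEmbedding _).injective
  have v1 (f : ℕ → ℕ) (n) (h : n ∈ range f) :
      1 / (r.2 + 1 : ℝ) < ‖(d (e (ξ ∘ f)) r.1).1 (g (ξ n))‖ := by
    have e1 : q (ξ n) = r := (hr.natEmbedding _ n).2
    rw [← e1]
    exact g2 _ _ (φ1 _ _ _ ((hJ _ _).2 (h.imp fun k hk => congrArg ξ hk)))
  have v0 (f : ℕ → ℕ) (n) (h : n ∉ range f) : (d (e (ξ ∘ f)) r.1).1 (g (ξ n)) = 0 :=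
    g1 _ _ (φ0 _ _ _ fun k => h (((hJ _ _).1 k).imp fun k hk => x1 hk))
  have pos : (0 : ℝ) < 1 / (r.2 + 1 : ℝ) := by positivity
  obtain ⟨s, p, s1, s2⟩ := pr_seq ht (fun z : {z : ℕ × ℕ // z.1 < z.2} => g (ξ z.1.2) - g (ξ z.1.1))
    fun hcl => by
      obtain ⟨z, hz⟩ : (0 : A) ∈ range fun z : {z : ℕ × ℕ // z.1 < z.2} =>
          g (ξ z.1.2) - g (ξ z.1.1) := by
        refine hcl.closure_subset (mem_closure_iff_nhds.2 fun U hU => ?_)
        obtain ⟨W, w1, -, w2⟩ := half hU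
        obtain ⟨F, f1, f2⟩ := hP W w1
        choose c c1 c2 using fun n => f2 (g (ξ n))
        obtain ⟨a, -, b, -, k1, k2⟩ := infinite_univ.exists_lt_map_eq_of_mapsTo
          (fun n _ => c1 n) f1
        exact ⟨_, by simpa [k2] using w2 _ (c2 b) _ (c2 a), ⟨(a, b), k1⟩, rfl⟩
      have := v1 (fun _ => z.1.2) _ ⟨0, rfl⟩
      rw [sub_eq_zero.1 hz, v0 _ _ fun ⟨_, k⟩ => z.2.ne' k, norm_zero] at this
      exact this.not_gt pos
  obtain ⟨u, u1, u2, u3⟩ := thin (fun n => (s n).1.1) (fun n => (s n).1.2) (fun n => (s n).2) (by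
    refine Tendsto.comp (g := fun z : {z : ℕ × ℕ // z.1 < z.2} => z.1.2) ?_ s1
    rw [← Nat.cofinite_eq_atTop]
    refine Tendsto.cofinite_of_finite_preimage_singleton fun n => ?_
    refine ((((finite_Iio n).prod (finite_singleton n)).preimage
      Subtype.val_injective.injOn).subset fun z hz => ⟨?_, hz⟩).to_subtype
    exact z.2.trans_eq hz)
  let f (k : ℕ) : ℕ := (s (u (2 * k))).1.2
  have t (c : ℕ) := (((d (e (ξ ∘ f)) r.1).2.norm.tendsto p).comp s2).comp (u1.tendsto_atTop.comp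
    (tendsto_atTop_mono (f := id) (g := fun k => 2 * k + c) (fun k => by simp only [id]; omega)
      tendsto_id))
  have a0 (k) := v0 f (s (u k)).1.1 fun ⟨j, hj⟩ => u3 _ _ hj
  have t0 := ge_of_tendsto' (t 0) fun k => by
    simp only [comp, map_sub, a0, sub_zero]
    exact (v1 f _ ⟨k, rfl⟩).le
  have t1 := tendsto_nhds_unique (t 1) (tendsto_const_nhds.congr fun k => by
    simp only [comp, map_sub, a0, sub_zero]
    rw [v0 f _ fun ⟨j, hj⟩ => by have := u2.injective hj; omega, norm_zero])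
  exact (t0.trans_eq t1).not_gt pos

theorem mainP (hκ : ℵ₀ ≤ κ) (hc : 𝔠 ≤ succ κ) (hA : Mn A) (ht : PR A) : Ps κ (univ : Set A) := by
  have sub (H : AddSubgroup A) (hH : IsClosed (H : Set A)) (hP : Mn H → Pre H) :=
    ps_sub H (psD hκ id (preP hκ hc (hP (mn_sub hA H hH)) (mn_sub hA H hH)
      (pr_cl hH.isClosedEmbedding_subtypeVal ht)) (sepD (hP (mn_sub hA H hH))))
  obtain ⟨𝒰, u1, u2, u3⟩ := sub (Dv A) (by
    rw [Dv, AddSubgroup.coe_iInf]
    exact isClosed_iInter fun _ => isClosed_closure) fun _ => pre_sub _ fun V hV => by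
      obtain ⟨W, w1, -, w2⟩ := half hV
      obtain ⟨k, hk, E, e1, e2⟩ := S1 hA w1
      refine ⟨E, e1, fun x hx => ?_⟩
      obtain ⟨y, hy⟩ := mem_Dv.1 hx k hk W w1
      obtain ⟨e, he, h⟩ := e2 y
      exact ⟨e, he, by simpa using w2 _ h _ hy⟩
  choose 𝒱 v1 v2 v3 using fun p : Nat.Primes => sub (zsmulAddGroupHom (p.1 : ℤ) : A →+ A).ker
    (isClosed_eq (continuous_zsmul _) continuous_const)
    fun h => expp h p.2 fun x => Subtype.ext x.2
  obtain ⟨N, n1, n2, n3⟩ := gd hκ (𝒰 := 𝒰 ∪ ⋃ p, 𝒱 p) ((mk_union_le _ _).trans (add_le_of_le hκ u1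
    (un_le hκ (mk_le_aleph0.trans hκ) _ v1))) (by
      rintro U (h | h)
      · exact u2 U h
      · obtain ⟨p, h⟩ := mem_iUnion.1 h
        exact v2 p U h)
  refine n3 (sub N n1 fun h => tf h (fun k hk x hx => ?_) fun g hg => Subtype.ext
    (u3 g (mem_Dv.2 fun k hk U hU => ?_) fun U hU => n2 _ g.2 U (Or.inl hU)))
  · have this (n : ℕ) : n ≠ 0 → ∀ x : N, (n : ℤ) • x = 0 → x = 0 := by
      induction n using induction_on_primes with
      | zero => simp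
      | one => simp
      | prime_mul p a hp ih =>
        intro h x hx
        rw [Nat.cast_mul, mul_smul] at hx
        exact ih (right_ne_zero_of_mul h) x (Subtype.ext (v3 ⟨p, hp⟩ _ (congrArg Subtype.val hx)
          fun U hU => n2 _ (Subtype.prop _) U (Or.inr (mem_iUnion.2 ⟨_, hU⟩))))
    refine this _ (Int.natAbs_ne_zero.2 hk) x ?_
    rw [← Int.sign_mul_self, mul_smul, hx, smul_zero]
  · obtain ⟨y, hy⟩ := mem_Dv.1 hg k hk _ (continuous_subtype_val.tendsto 0 hU)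
    exact ⟨y, hy⟩

theorem locP (hκ : ℵ₀ ≤ κ) (hc : 𝔠 ≤ succ κ) (hA : Mn A) (ht : PR A) :
    ∃ 𝓑 : Set (Set A), (𝓝 (0 : A)).HasBasis (fun s => s ∈ 𝓑) id ∧ #𝓑 ≤ κ := by
  let W : Set A := univ
  have w1 : W ∈ 𝓝 0 := univ_mem
  have hL (P : Filter A) h1 h2 h3 (_ : W ∈ P) := hA P h1 h2 h3
  obtain ⟨𝒰, a1, a2, a3⟩ := mainP hκ hc hA ht
  choose V v0 v1 v2 using fun Y : ↥(insert W 𝒰) => chain (U := Y.1)
    (Y.2.elim (fun h => h.symm ▸ w1) (a2 _))
  let P : Filter A := ⨅ q : ↥(insert W 𝒰) × ℕ, 𝓟 (V q.1 q.2)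
  have p1 : 𝓝 0 ≤ P := le_iInf fun q => le_principal_iff.2 (v1 _ _)
  have p2 (Y n) : V Y n ∈ P := mem_iInf_of_mem (Y, n) (mem_principal_self _)
  have e := le_antisymm p1 (hL P ((pure_le_nhds _).trans p1)
    (tendsto_iInf.2 fun q => tendsto_principal.2 (mem_of_superset
      (prod_mem_prod (p2 q.1 (q.2 + 1)) (p2 q.1 (q.2 + 1))) fun p hp => (v2 _ _).2 _ hp.1 _ hp.2))
    (fun g hg => a3 g trivial fun Y hY => ?_) (mem_of_superset (p2 ⟨W, Or.inl rfl⟩ 0) (v0 _).le))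
  · haveI : Nonempty ↥(insert W 𝒰) := ⟨⟨W, Or.inl rfl⟩⟩
    refine ⟨range fun t : Finset (↥(insert W 𝒰) × ℕ) => ⋂ q ∈ t, V q.1 q.2, ?_,
      mk_range_le.trans ?_⟩
    · rw [e]
      refine (hasBasis_iInf_principal_finite _).to_hasBasis
        (fun t ht => ⟨_, ⟨ht.toFinset, rfl⟩, by simp⟩) ?_
      rintro _ ⟨t, rfl⟩
      exact ⟨t, t.finite_toSet, by simp⟩
    · rw [mk_finset_of_infinite]
      simpa using (mul_le_mul' (mk_insert_le.trans (add_le_of_le hκ a1 (one_le_aleph0.trans hκ)))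
        hκ).trans (mul_eq_self hκ).le
  · obtain ⟨y, h3, h4⟩ := clusterPt_iff_nonempty.1 hg (((continuous_sub_right g).tendsto' g 0
      (sub_self g)) (v1 ⟨Y, Or.inr hY⟩ 1)) (p2 ⟨Y, Or.inr hY⟩ 1)
    simpa [v0] using (v2 ⟨Y, Or.inr hY⟩ 0).2 _ h4 _ h3

end Pool.Agent.H.MP_7406cc_gt.A
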